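import Pool.Agent.TH53.SL6

/-!
# Parry powers of Perron numbers with few distinct zeros modulo `p`

Let `β > 1` be a Perron number with minimal polynomial `f` of degree `n`, let `p` be a prime number and
let `s` be the number of distinct zeros of `f` modulo `p` (in an algebraic closure of the field with `p`
elements).  If `4 p s log (p n) ≤ ε ^ 2 n log p`, `0 < ε ≤ 1`, and `β < p ^ ((1 - ε) / 2)`, then only
finitely many powers of `β` are Parry numbers; if `16 p s log (p n) ≤ n log p`, then this holds for all
`β` below Lehmer's number.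

Method (library `Pool.Agent.TH53`, helper53): if infinitely many powers of `β` are Parry numbers then all
other conjugates of `β` are in the closed unit disc, the `p ^ t`-th powers of the conjugates are distinct,
and by the Frobenius congruence the values of a polynomial of small degree at these powers are divisible
by `p`, so that the Vandermonde determinant of the powers is divisible by a high power of `p`.
-/

set_option autoImplicit false

open Polynomial

namespace Pool.Agent.Results.MP_1f45fc_nt.FewZerosModP

/-- `β` is a Perron number: a real algebraic integer `> 1` all of whose other conjugates have absolute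
value smaller than `β`. -/
def IsPerron (β : ℝ) : Prop :=
  1 < β ∧ IsIntegral ℤ β ∧ ∀ z : ℂ, aeval z (minpoly ℤ β) = 0 → z ≠ (β : ℂ) → ‖z‖ < β

/-- The `m ≥ 1` for which the orbit of `1` under `y ↦ fract (β ^ m * y)` is finite, that is, for which
`β ^ m` is a Parry number. -/
def ParryPowers (β : ℝ) : Set ℕ :=
  {m : ℕ | 1 ≤ m ∧ Set.Finite (Set.range (fun k : ℕ => (fun y : ℝ => Int.fract (β ^ m * y))^[k] (1 : ℝ)))}

/-- The number of distinct zeros of `f` modulo `p`, in an algebraic closure of the field with `p`
elements. -/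
noncomputable def zerosMod (f : ℤ[X]) (p : ℕ) [Fact p.Prime] : ℕ :=
  ((f.map (Int.castRingHom (ZMod p))).rootSet (AlgebraicClosure (ZMod p))).ncard

/-- **Parry powers of Perron numbers with few distinct zeros modulo `p`.** -/
theorem result (β : ℝ) (hβ : IsPerron β) (p : ℕ) [Fact p.Prime] :
    (∀ ε : ℝ, 0 < ε → ε ≤ 1 →
      4 * (p : ℝ) * zerosMod (minpoly ℤ β) p * Real.log (p * (minpoly ℤ β).natDegree) ≤
        ε ^ 2 * (minpoly ℤ β).natDegree * Real.log p →
      β < (p : ℝ) ^ ((1 - ε) / 2) → (ParryPowers β).Finite) ∧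
    (∀ τ : ℝ, 1 < τ → τ ^ 10 + τ ^ 9 - τ ^ 7 - τ ^ 6 - τ ^ 5 - τ ^ 4 - τ ^ 3 + τ + 1 = 0 → β < τ →
      16 * (p : ℝ) * zerosMod (minpoly ℤ β) p * Real.log (p * (minpoly ℤ β).natDegree) ≤
        (minpoly ℤ β).natDegree * Real.log p →
      (ParryPowers β).Finite) :=
  ⟨fun ε hε hε1 h hlt => Pool.Agent.TH53.SL.parry_finite hβ.1 hβ.2.1 hβ.2.2 p ε hε hε1 h hlt,
    fun _ hτ1 hτ hlt h =>
      Pool.Agent.TH53.SL.parry_finite_lehmer hτ1 hτ hβ.1 hlt hβ.2.1 hβ.2.2 p h⟩

end Pool.Agent.Results.MP_1f45fc_nt.FewZerosModP
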