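import Pool.Agent.H256R2.EF.MAIN

/-!
# Optimal Egyptian fractions have few terms

Every fraction `x / y` with `0 < x < y` has an Egyptian fraction representation with
`O(loglog y * logloglog y)` terms.  The bound on the page is `O(√(log y))` (Vose 1985), and some
fractions need at least `c loglog y` terms; it is conjectured that `O(loglog y)` terms always suffice.

So the minimum length `L(x/y)`, whose computation is the question of the page, is between `1` and
`C loglog y * log (3 + loglog y)`; every constant approximates it within this factor.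

The proof is in `Pool/Agent/H256R2/EF` (starting library).
-/

set_option autoImplicit false

namespace Pool.Agent.Results.MP_a692c2_lc.FewTerms

/-- `s` is the set of the denominators of an Egyptian fraction representation of `x / y`: a nonempty
finite set of positive integers the reciprocals of which add up to `x / y`. -/
def IsEgy (x y : ℕ) (s : Finset ℕ) : Prop :=
  s.Nonempty ∧ (∀ n ∈ s, 0 < n) ∧ ∑ n ∈ s, (1 / (n : ℚ)) = (x : ℚ) / (y : ℚ)

/-- `L(x/y)`: the minimum length of an Egyptian fraction representation of `x / y`. -/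
noncomputable def minLen (x y : ℕ) : ℕ := sInf {k | ∃ s, IsEgy x y s ∧ s.card = k}

/-- There is a constant `C` such that for all `0 < x < y`, `y ≥ 3`, the minimum length `L(x/y)` of an
Egyptian fraction representation of `x / y` is attained and
`1 ≤ L(x/y) ≤ C loglog y * log (3 + loglog y)`. -/
theorem result : ∃ C : ℝ, ∀ x y : ℕ, 0 < x → x < y → 3 ≤ y →
    (∃ s, IsEgy x y s ∧ s.card = minLen x y) ∧ 1 ≤ minLen x y ∧
      (minLen x y : ℝ) ≤ C * (Real.log (Real.log y) * Real.log (3 + Real.log (Real.log y))) := by
  obtain ⟨C, hC⟩ := Pool.Agent.H256R2.EF.main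
  refine ⟨C, fun x y hx hxy hy => ?_⟩
  obtain ⟨S, h0, h1, h2⟩ := hC x y hx hxy hy
  have hS : IsEgy x y S := by
    refine ⟨?_, fun n hn => Nat.pos_of_ne_zero fun h => h0 (h ▸ hn), h1⟩
    by_contra hne
    rw [Finset.not_nonempty_iff_eq_empty] at hne
    rw [hne, Finset.sum_empty] at h1
    have hx' : (0 : ℚ) < x := by exact_mod_cast hx
    have hy' : (0 : ℚ) < y := by exact_mod_cast (by omega : 0 < y)
    have := div_pos hx' hy'
    rw [← h1] at this
    exact lt_irrefl _ this
  have hmem : ∃ s, IsEgy x y s ∧ s.card = minLen x y :=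
    Nat.sInf_mem (s := {k | ∃ s, IsEgy x y s ∧ s.card = k}) ⟨_, S, hS, rfl⟩
  refine ⟨hmem, ?_, ?_⟩
  · obtain ⟨s, hs, hc⟩ := hmem
    rw [← hc]
    exact Finset.card_pos.2 hs.1
  · have h3 : minLen x y ≤ S.card := Nat.sInf_le ⟨S, hS, rfl⟩
    exact le_trans (by exact_mod_cast h3) h2

end Pool.Agent.Results.MP_a692c2_lc.FewTerms
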