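import Pool.Agent.H438R2.DL.App2

/-!
# Primes just below the multiples of almost all real numbers

The question asks for a prime in `(z, z + √z)` for every real `z ≥ 117`.  We consider the much shorter
intervals `(k x - λ log (k x), k x)`, with a fixed `λ > 0` as small as we please, which end at the
multiples of a real number `x`.

For all `δ ∈ (0, 1)` and `λ > 0` there are `c, κ > 0` such that for all large `Y` the following holds
for all real `x ∈ [Y, 2 Y]` outside of a set of measure at most `Y ^ (1 - κ)`: for at least `c Y ^ δ`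
of the natural numbers `k ≤ Y ^ δ` there is a prime in `(k x - λ log (k x), k x)`.

Moreover, for every set `P` of natural numbers in `(X, 2 X]`, for instance any set of primes, and all
`Y ≤ X ^ (1 - δ)` and `h` with `X ^ (-κ) ≤ h ≤ Y`, for all `x ∈ [Y, 2 Y]` outside of a set of measure
at most `Y X ^ (-κ)`, the number of the pairs `(k, p)` with `p ∈ P` and `k x - h < p < k x` is
`(h / x) (|P| + O(X ^ (1 - κ)))`.  The theorems are in the library (helper438); they were made for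
Chowla's conjecture on the least primes in progressions.
-/

set_option autoImplicit false

namespace Pool.Agent.Results.MP_b8a134_nt.MultiplesOfReals

open MeasureTheory

/-- **Primes just below the multiples of almost all real numbers.**

(1) For all `0 < δ < 1` and `λ > 0` there are `c, κ > 0` and `Y₀` such that for all `Y ≥ Y₀` there is
a measurable set `E` of measure at most `Y ^ (1 - κ)` such that for all real `x ∈ [Y, 2 Y]` outside
`E`, at least `c Y ^ δ` of the natural numbers `k ≤ Y ^ δ` have the property that there is a prime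
`p` with `k x - λ log (k x) < p < k x`.

(2) For all `0 < δ < 1` there are `κ > 0` and `X₀` such that for all `X ≥ X₀`, all sets `P` of natural
numbers in `(X, 2 X]` and all real `Y`, `h` with `0 < Y ≤ X ^ (1 - δ)` and `X ^ (-κ) ≤ h ≤ Y` there is
a measurable set `E` of measure at most `Y X ^ (-κ)` such that for all real `x ∈ [Y, 2 Y]` outside `E`
the number of the pairs `(k, p)`, `k` a natural number, `p ∈ P`, with `k x - h < p < k x` differs from
`(h / x) |P|` by at most `(h / x) X ^ (1 - κ)`. -/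
theorem result :
    (∀ δ lam : ℝ, 0 < δ → δ < 1 → 0 < lam →
      ∃ c κ : ℝ, 0 < c ∧ 0 < κ ∧ ∃ Y₀ : ℝ, ∀ Y : ℝ, Y₀ ≤ Y →
        ∃ E : Set ℝ, MeasurableSet E ∧ volume E ≤ ENNReal.ofReal (Y ^ (1 - κ)) ∧
          ∀ x : ℝ, Y ≤ x → x ≤ 2 * Y → x ∉ E →
            c * Y ^ δ ≤ ({k : ℕ | (k : ℝ) ≤ Y ^ δ ∧ ∃ p : ℕ, p.Prime ∧
              k * x - lam * Real.log (k * x) < p ∧ (p : ℝ) < k * x}.ncard : ℝ)) ∧
    (∀ δ : ℝ, 0 < δ → δ < 1 →
      ∃ κ : ℝ, 0 < κ ∧ ∃ X₀ : ℕ, ∀ X : ℕ, X₀ ≤ X →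
        ∀ P : Finset ℕ, (∀ p ∈ P, X < p ∧ p ≤ 2 * X) →
        ∀ Y h : ℝ, 0 < Y → Y ≤ (X : ℝ) ^ (1 - δ) → (X : ℝ) ^ (-κ) ≤ h → h ≤ Y →
          ∃ E : Set ℝ, MeasurableSet E ∧ volume E ≤ ENNReal.ofReal (Y * (X : ℝ) ^ (-κ)) ∧
            ∀ x : ℝ, Y ≤ x → x ≤ 2 * Y → x ∉ E →
              |({q : ℕ × ℕ | q.2 ∈ P ∧ (q.1 : ℝ) * x - h < q.2 ∧
                  (q.2 : ℝ) < q.1 * x}.ncard : ℝ) - (h / x) * P.card| ≤
                (h / x) * (X : ℝ) ^ (1 - κ)) := by
  refine ⟨fun δ lam hδ hδ1 hlam => Pool.Agent.H438R2.DL.pos_prop δ lam hδ hδ1 hlam,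
    fun δ hδ hδ1 => ?_⟩
  obtain ⟨κ, hκ, X₀, h⟩ := Pool.Agent.H438R2.DL.pairs_asymp δ hδ hδ1
  exact ⟨κ, hκ, X₀, fun X hX P hP => h X hX P fun p hp => Finset.mem_Ioc.2 (hP p hp)⟩

end Pool.Agent.Results.MP_b8a134_nt.MultiplesOfReals
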