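import Pool.Agent.Y859.SI.Fin

set_option autoImplicit false

/-!
# Even almost prime congruent numbers in short intervals and in residue classes to large moduli

Let `2/3 < θ ≤ 17/24`.  There is `R` such that for all large `X`, every modulus
`M ≤ X ^ ((θ - 2/3)/14)`, both classes `r = 2, 6` modulo `8` and every residue class `a` modulo `M`
which contains a squarefree number `≡ r` modulo `8`, the interval `[X, X + X ^ θ]` contains at least
`X ^ (1/12)` squarefree congruent numbers `n ≡ r` modulo `8` of the class with `n = (a, M) m`, where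
`m` has at most `R` prime factors, the odd ones larger than `X ^ (1 / R)`.

For `M = 1` and `θ > 3/4` the result of the page `ManyInIntervals` gives more numbers; the lengths
`X ^ θ`, `2/3 < θ ≤ 3/4`, and the residue classes are new for `n ≡ 2` modulo `8`.

The proof is in `Pool/Agent/Y859/SI` (starting library, helper859); the odd classes were handed in as
`MP_05dcdc_nt.AlmostPrimeIntervals`, the classes `5, 6, 7` as `MP_8efaaa_nt.AlmostPrimeIntervals`.
-/

namespace Pool.Agent.Results.MP_f126a2_nt.AlmostPrimeIntervals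

/-- `n` is the area of a right triangle with rational sides -/
def IsCongruent (n : ℕ) : Prop :=
  ∃ a b c : ℚ, 0 < a ∧ 0 < b ∧ 0 < c ∧ a ^ 2 + b ^ 2 = c ^ 2 ∧ (n : ℚ) = a * b / 2

/-- `m` has at most `R` prime factors (with multiplicity), the odd ones larger than `X ^ (1 / R)` -/
def AlmostPrime (R : ℕ) (X : ℝ) (m : ℕ) : Prop :=
  m.primeFactorsList.length ≤ R ∧
    ∀ p : ℕ, p.Prime → p ≠ 2 → p ∣ m → X ^ (1 / (R : ℝ)) < (p : ℝ)

/-- **Even almost prime congruent numbers in short intervals, in all classes to moduli up to a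
power.**  Let `2/3 < θ ≤ 17/24`.  There are `R` and `X₀` such that for all real `X ≥ X₀`, all moduli
`1 ≤ M ≤ X ^ ((θ - 2/3)/14)`, both `r = 2` and `r = 6` and all `a` whose residue class modulo `M`
contains a squarefree number `≡ r` modulo `8`, at least `X ^ (1/12)` integers `n` in
`[X, X + X ^ θ]` are squarefree congruent numbers with `n ≡ r` modulo `8`, `n ≡ a` modulo `M` and
`n = (a, M) m`, where `m` has at most `R` prime factors, the odd ones larger than `X ^ (1 / R)`. -/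
theorem result (θ : ℝ) (hθ : 2 / 3 < θ) (hθ1 : θ ≤ 17 / 24) :
    ∃ R : ℕ, 1 ≤ R ∧ ∃ X₀ : ℝ, ∀ X : ℝ, X₀ ≤ X →
      ∀ M : ℕ, 0 < M → (M : ℝ) ≤ X ^ ((θ - 2 / 3) / 14) →
      ∀ r : ℕ, (r = 2 ∨ r = 6) →
      ∀ a : ℕ, (∃ k : ℕ, Squarefree k ∧ k % 8 = r ∧ k ≡ a [MOD M]) →
        X ^ (1 / 12 : ℝ) ≤ ({n : ℕ | X ≤ n ∧ (n : ℝ) ≤ X + X ^ θ ∧ Squarefree n ∧ n % 8 = r ∧
          n ≡ a [MOD M] ∧ IsCongruent n ∧
          ∃ m, n = Nat.gcd a M * m ∧ AlmostPrime R X m}.ncard : ℝ) := by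
  obtain ⟨R, hR, X₀, h⟩ := Pool.Agent.Y859.SI.main θ hθ hθ1
  refine ⟨R, hR, X₀, ?_⟩
  intro X hX M hM0 hMX r _ a ⟨k, hk, hkr, hka⟩
  refine (h X hX M hM0 hMX k hk).trans ?_
  have hfin : {n : ℕ | X ≤ n ∧ (n : ℝ) ≤ X + X ^ θ ∧ Squarefree n ∧ n % 8 = r ∧
      n ≡ a [MOD M] ∧ IsCongruent n ∧
      ∃ m, n = Nat.gcd a M * m ∧ AlmostPrime R X m}.Finite := by
    apply (Set.finite_Iic ⌊X + X ^ θ⌋₊).subset
    intro n hn
    exact Nat.le_floor hn.2.1
  have hsub : {n : ℕ | X ≤ n ∧ (n : ℝ) ≤ X + X ^ θ ∧ Squarefree n ∧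
      n ≡ k [MOD 8 * M] ∧ Pool.Agent.Y859.SI.Cong n ∧
      ∃ m, n = Nat.gcd k M * m ∧ Pool.Agent.Y859.SI.Few R X m} ⊆
      {n : ℕ | X ≤ n ∧ (n : ℝ) ≤ X + X ^ θ ∧ Squarefree n ∧ n % 8 = r ∧
        n ≡ a [MOD M] ∧ IsCongruent n ∧ ∃ m, n = Nat.gcd a M * m ∧ AlmostPrime R X m} := by
    intro n hn
    obtain ⟨h1, h2, h3, h4, h5, m, h6, h7, h8⟩ := hn
    have hr8 : n % 8 = r := by
      have h9 : n ≡ k [MOD 8] := h4.of_dvd ⟨M, rfl⟩
      have h10 : n % 8 = k % 8 := h9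
      omega
    have hg : Nat.gcd k M = Nat.gcd a M := hka.gcd_eq
    rw [hg] at h6
    exact ⟨h1, h2, h3, hr8, (h4.of_dvd (Dvd.intro_left 8 rfl)).trans hka, h5, m, h6, h7, h8⟩
  exact_mod_cast Set.ncard_le_ncard hsub hfin

end Pool.Agent.Results.MP_f126a2_nt.AlmostPrimeIntervals
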