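import Pool.Agent.Y859.MU.Fin

set_option autoImplicit false

/-!
# Even congruent numbers with a prescribed divisor, in all classes modulo `16`

Every squarefree `B ≤ X ^ (1/2 - ε)`, odd or even, divides at least `X ^ (1/2 - ε) / B` squarefree
congruent numbers `n ≤ X` of each of the classes `2, 6, 10, 14` modulo `16`, and the quotient `n / B`
is almost prime.  By Tunnell's theorem all these `n` satisfy `2 |C_n| = |D_n|`, so each of them is a
case of Q1.  In the classes `2` and `10` (`n ≡ 2` modulo `8`) the two counts are not identically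
zero, so that for these `n` the equality is a condition; nothing was known on this page for
prescribed divisors or almost primes with a bound for each divisor.

The proof is in `Pool/Agent/Y859/MU` (starting library, helper859), which treats all classes at
once; the odd classes are `MP_05dcdc_nt.EveryOddDivisor`, the class `6` modulo `8` is contained in
`MP_8efaaa_nt.EveryDivisor`.
-/

namespace Pool.Agent.Results.MP_f126a2_nt.EveryDivisor

/-- `n` is the area of a right triangle with rational sides -/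
def IsCongruent (n : ℕ) : Prop :=
  ∃ a b c : ℚ, 0 < a ∧ 0 < b ∧ 0 < c ∧ a ^ 2 + b ^ 2 = c ^ 2 ∧ a * b / 2 = (n : ℚ)

/-- `m` has at most `R` prime factors (with multiplicity), the odd ones larger than
`X ^ (1 / R)` -/
def AlmostPrime (R X m : ℕ) : Prop :=
  m.primeFactorsList.length ≤ R ∧
    ∀ p : ℕ, p.Prime → p ≠ 2 → p ∣ m → (X : ℝ) ^ (1 / (R : ℝ)) < (p : ℝ)

/-- **Every squarefree `B ≤ X ^ (1/2 - ε)` divides many even squarefree congruent numbers `n ≤ X`
in each of the classes `2, 6, 10, 14` modulo `16`, with an almost prime quotient.** -/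
theorem result (ε : ℝ) (hε : 0 < ε) (hε1 : ε ≤ 1 / 2) : ∃ R X₀ : ℕ, 1 ≤ R ∧ ∀ X : ℕ, X₀ ≤ X →
    ∀ B : ℕ, Squarefree B → (B : ℝ) ≤ (X : ℝ) ^ (1 / 2 - ε) →
      ∀ r : ℕ, (r = 2 ∨ r = 6 ∨ r = 10 ∨ r = 14) → (X : ℝ) ^ (1 / 2 - ε) / B ≤
        ({n : ℕ | n ≤ X ∧ n % 16 = r ∧ Squarefree n ∧ IsCongruent n ∧
          ∃ m, n = B * m ∧ AlmostPrime R X m}.ncard : ℝ) := by
  obtain ⟨R, X0, hR, h⟩ := Pool.Agent.Y859.MU.main ε hε hε1
  exact ⟨R, X0, hR, fun X hX B hB hBX r hr =>
    (h X hX B hB hBX).2 r (by omega) (by omega)⟩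

end Pool.Agent.Results.MP_f126a2_nt.EveryDivisor
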