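import Pool.Agent.Helper108.KN.Final

/-!
# Comparing the lcms of adjacent blocks: the inequality is reversed far out for infinitely many `n`

`L m k` is the least common multiple of the `k` integers after `m`.  The question is whether for infinitely
many `n` the inequality `L(n;k) > L(n-k;k)` holds for every `1 ≤ k < n`, that is, whether `k(n) = 0`
for infinitely many `n`, where `k(n)` is the largest `k < n` for which the inequality is reversed (and `0` if
there is none).  Known on the page: `k(n) = o(n)`.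

Here: for every `θ < 5/9` there are infinitely many `n` with `k(n) > n^θ`.

The proof is in `Pool/Agent/Helper108/KN` (starting library).
-/

set_option autoImplicit false

namespace Pool.Agent.Results.MP_ff0ae1_nt.LargeReversals

/-- `L(m;k)`: the least common multiple of `m + 1, …, m + k`. -/
def L (m k : ℕ) : ℕ := (Finset.Icc (m + 1) (m + k)).lcm id

/-- `k(n)`: the largest `k` with `1 ≤ k < n` and `L(n;k) < L(n-k;k)`, and `0` if there is none. -/
def kmax (n : ℕ) : ℕ := ((Finset.range n).filter (fun k => 1 ≤ k ∧ L n k < L (n - k) k)).sup id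

/-- For every `θ < 5/9` there are infinitely many `n` with `k(n) > n^θ`: for such `n` there is a `k` with
`n^θ < k < n` and `L(n;k) < L(n-k;k)`. -/
theorem result (θ : ℝ) (hθ : θ < 5 / 9) :
    {n : ℕ | (n : ℝ) ^ θ < (kmax n : ℝ)}.Infinite ∧
    {n : ℕ | ∃ k : ℕ, 1 ≤ k ∧ k < n ∧ (n : ℝ) ^ θ < (k : ℝ) ∧ L n k < L (n - k) k}.Infinite := by
  have h1 : {n : ℕ | (n : ℝ) ^ θ < (kmax n : ℝ)}.Infinite := by
    rw [Set.infinite_iff_exists_gt]
    intro a
    obtain ⟨n, hn, h⟩ := Pool.Agent.Helper108.KN.Final.kmax_large θ hθ (a + 1)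
    exact ⟨n, h, by omega⟩
  refine ⟨h1, (h1.diff (Set.finite_singleton 0)).mono ?_⟩
  rintro n ⟨hn, hn0⟩
  have hn' : (n : ℝ) ^ θ < (kmax n : ℝ) := hn
  have hpos : (0 : ℝ) < kmax n := lt_of_le_of_lt (by positivity) hn'
  have hpos' : 0 < kmax n := by exact_mod_cast hpos
  have hne : ((Finset.range n).filter (fun k => 1 ≤ k ∧ L n k < L (n - k) k)).Nonempty := by
    by_contra h
    rw [Finset.not_nonempty_iff_eq_empty] at h
    simp [kmax, h] at hpos'
  obtain ⟨k, hk, hke⟩ := Finset.exists_mem_eq_sup _ hne id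
  rw [Finset.mem_filter, Finset.mem_range] at hk
  refine ⟨k, hk.2.1, hk.1, ?_, hk.2.2⟩
  have : kmax n = k := hke
  rw [this] at hn'
  exact hn'

end Pool.Agent.Results.MP_ff0ae1_nt.LargeReversals
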